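import Pool.Agent.Helper99.SI.StD

set_option autoImplicit false

/-!
# Project SI: module D6 (the contraction)
-/

namespace Pool.Agent.Helper3.SI

open Pool.Agent.Helper99.SI

lemma nsq_add_of_disjoint {ι : Type} [DecidableEq ι] (p q : ι →₀ ℂ)
    (h : Disjoint p.support q.support) : nsq (p + q) = nsq p + nsq q := by
  unfold nsq
  exact Finsupp.sum_add_index_of_disjoint h _

lemma nsq_mapDomain {ι ι' : Type} (f : ι → ι') (hf : Function.Injective f) (p : ι →₀ ℂ) :
    nsq (p.mapDomain f) = nsq p := by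
  unfold nsq
  exact Finsupp.sum_mapDomain_index_inj hf

/-- Words ending with different letters: the squared norms add up. -/
lemma nsq_sum_snoc {n : ℕ} (p : Fin n → (W n →₀ ℂ)) (s : Finset (Fin n)) :
    nsq (∑ i ∈ s, (p i).mapDomain (fun μ : W n => μ ++ [i])) = ∑ i ∈ s, nsq (p i) ∧
      ∀ ν ∈ (∑ i ∈ s, (p i).mapDomain (fun μ : W n => μ ++ [i])).support,
        ∃ i ∈ s, ∃ μ : W n, ν = μ ++ [i] := by
  classical
  induction s using Finset.induction_on with
  | empty =>
    refine ⟨?_, ?_⟩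
    · simp [nsq]
    · intro ν hν
      simp at hν
  | insert a s ha ih =>
    obtain ⟨ih1, ih2⟩ := ih
    have hinj : Function.Injective (fun μ : W n => μ ++ [a]) := fun μ ν h => by
      simpa using h
    have hsupp : ∀ ν ∈ ((p a).mapDomain (fun μ : W n => μ ++ [a])).support,
        ∃ μ : W n, ν = μ ++ [a] := by
      intro ν hν
      have := Finsupp.mapDomain_support hν
      obtain ⟨μ, -, hμ⟩ := Finset.mem_image.1 this
      exact ⟨μ, hμ.symm⟩
    rw [Finset.sum_insert ha, Finset.sum_insert ha]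
    refine ⟨?_, ?_⟩
    · rw [nsq_add_of_disjoint, ih1, nsq_mapDomain _ hinj]
      rw [Finset.disjoint_left]
      intro ν h1 h2
      obtain ⟨μ, hμ⟩ := hsupp ν h1
      obtain ⟨i, hi, μ', hμ'⟩ := ih2 ν h2
      rw [hμ] at hμ'
      have h3 : ([a] : W n) = [i] := (List.append_inj' hμ' rfl).2
      have h4 : a = i := by simpa using h3
      exact ha (h4 ▸ hi)
    · intro ν hν
      rcases Finset.mem_union.1 (Finsupp.support_add hν) with h | h
      · obtain ⟨μ, hμ⟩ := hsupp ν h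
        exact ⟨a, Finset.mem_insert_self _ _, μ, hμ⟩
      · obtain ⟨i, hi, μ, hμ⟩ := ih2 ν h
        exact ⟨i, Finset.mem_insert_of_mem hi, μ, hμ⟩

theorem hD6 (h1 : StA0) (h2 : StA1) (h3 : StA3) (h4 : StD5) : StD6 := by
  intro n L _ _ _ _ _ D n1 M4 hL u hu hu1 p hp _
  classical
  have hT0 : ((u ^ n1 : ℝ) : ℂ) ≠ 0 := by
    exact_mod_cast (pow_pos hu n1).ne'
  set T : ℂ := ((u ^ n1 : ℝ) : ℂ) with hTdef
  obtain ⟨-, hmul, hone, -, -, -, -, -, -, -⟩ := h1 L D.b
  obtain ⟨happ, -, -, -, -⟩ := h2 n L D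
  obtain ⟨-, hcf, hemb, hembS⟩ := h3 n L D
  have hw0 : D.w ([] : W n) = 1 := by simp [Sys.w, wd]
  have hw1 : ∀ i : Fin n, D.w [i] = D.x i := fun i => by simp [Sys.w, wd]
  -- the elements Y κ
  set Y : W n → L := fun κ => star (D.b.ev T (D.w κ)) with hY
  have hY0 : Y [] = 1 := by
    simp only [hY]
    rw [hw0, hone, star_one]
  have hYc : ∀ (i : Fin n) (κ : W n), Y (i :: κ) = Y κ * star (D.b.ev T (D.x i)) := by
    intro i κ
    simp only [hY]
    have : D.w (i :: κ) = D.x i * D.w κ := by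
      have := happ [i] κ
      rw [hw1] at this
      simpa using this
    rw [this, hmul T _ _ hT0, star_mul]
  -- membership in S
  have hYS : ∀ κ : W n, κ.length ≤ n1 → Y κ * D.emb p ∈ D.S := by
    intro κ hκ
    have hword : ∀ ν : W n, M4 ≤ ν.length → Y κ * D.w ν ∈ D.S := by
      intro ν hν
      have e1 : D.b.ev T (D.w κ) = ∑ᶠ j : ℤ, T ^ j • D.b.p j (D.w κ) := rfl
      have hfin := D.b.fin' (fun j : ℤ => T ^ j) (D.w κ)
      rw [finsum_eq_sum _ hfin] at e1
      simp only [hY]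
      rw [e1, star_sum, Finset.sum_mul]
      refine Submodule.sum_mem _ fun j _ => ?_
      rw [star_smul, smul_mul_assoc]
      exact Submodule.smul_mem _ _ (hL.l1 ν κ hν hκ j)
    have e2 : D.emb p = ∑ ν ∈ p.support, p ν • D.w ν := by
      simp only [Sys.emb]
      rw [Finsupp.linearCombination_apply, Finsupp.sum]
    rw [e2, Finset.mul_sum]
    refine Submodule.sum_mem _ fun ν hν => ?_
    rw [mul_smul_comm]
    exact Submodule.smul_mem _ _ (hword ν (hp ν (Finsupp.mem_support_iff.1 hν)))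
  -- right multiplication by a letter
  have hembsn : ∀ (i : Fin n) (q : W n →₀ ℂ),
      D.emb (q.mapDomain fun μ : W n => μ ++ [i]) = D.emb q * D.x i := by
    intro i q
    simp only [Sys.emb]
    rw [Finsupp.linearCombination_mapDomain, Finsupp.linearCombination_apply,
      Finsupp.linearCombination_apply, Finsupp.sum, Finsupp.sum, Finset.sum_mul]
    refine Finset.sum_congr rfl fun μ _ => ?_
    rw [Function.comp_apply, happ, hw1, smul_mul_assoc]
  have hsum : ∀ s : Fin n → L, (∀ i, s i ∈ D.S) →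
      (∑ i, s i * D.x i ∈ D.S) ∧ nsq (D.cf (∑ i, s i * D.x i)) = ∑ i, nsq (D.cf (s i)) := by
    intro s hs
    have e : ∑ i, s i * D.x i
        = D.emb (∑ i, (D.cf (s i)).mapDomain fun μ : W n => μ ++ [i]) := by
      rw [map_sum]
      refine Finset.sum_congr rfl fun i _ => ?_
      rw [hembsn, hemb _ (hs i)]
    refine ⟨?_, ?_⟩
    · rw [e]
      exact hembS _
    · rw [e, hcf]
      exact (nsq_sum_snoc (fun i => D.cf (s i)) Finset.univ).1
  have hn1 : 1 ≤ n1 := hL.n1pos
  -- A_t p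
  have hAt : D.emb (D.At (u ^ n1) p) = ∑ i, star (D.b.ev T (D.x i)) * D.emb p * D.x i := by
    unfold Sys.At
    refine hemb _ (hsum _ fun i => ?_).1
    have := hYS [i] (by simpa using hn1)
    rw [hYc, hY0, one_mul] at this
    exact this
  have hstep : ∀ κ : W n, κ.length < n1 →
      nsq (D.cf (Y κ * D.emb (D.At (u ^ n1) p))) = ∑ i, nsq (D.cf (Y (i :: κ) * D.emb p)) := by
    intro κ hκ
    rw [← (hsum (fun i => Y (i :: κ) * D.emb p) fun i =>
      hYS (i :: κ) (by simpa using hκ)).2, hAt, Finset.mul_sum]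
    congr 2
    refine Finset.sum_congr rfl fun i _ => ?_
    rw [hYc]
    simp only [mul_assoc]
  -- the level sums
  set a : ℕ → ℝ := fun j => ∑ κ : Fin j → Fin n, nsq (D.cf (Y (List.ofFn κ) * D.emb p)) with ha
  have hNu : D.Nu n1 u p = ∑ j ∈ Finset.range n1, u ^ (-2 * (j : ℤ)) * a j := by
    unfold Sys.Nu
    refine Finset.sum_congr rfl fun j _ => ?_
    rw [ha, Finset.mul_sum]
  have hNuA : D.Nu n1 u (D.At (u ^ n1) p)
      = ∑ j ∈ Finset.range n1, u ^ (-2 * (j : ℤ)) * a (j + 1) := by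
    unfold Sys.Nu
    refine Finset.sum_congr rfl fun j hj => ?_
    rw [← Finset.mul_sum]
    congr 1
    have hjlt : j < n1 := Finset.mem_range.1 hj
    have e3 : ∀ κ : Fin j → Fin n,
        nsq (D.cf (star (D.b.ev T (D.w (List.ofFn κ))) * D.emb (D.At (u ^ n1) p)))
          = ∑ i, nsq (D.cf (Y (i :: List.ofFn κ) * D.emb p)) := fun κ =>
      hstep (List.ofFn κ) (by simpa using hjlt)
    rw [Finset.sum_congr rfl fun κ _ => e3 κ, Finset.sum_comm]
    simp only [ha]
    rw [← Fintype.sum_prod_type']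
    refine Fintype.sum_equiv (Fin.consEquiv fun _ : Fin (j + 1) => Fin n) _ _ fun q => ?_
    obtain ⟨i, κ⟩ := q
    congr 4
    rw [List.ofFn_succ]
    simp
  set c : ℕ → ℝ := fun j => u ^ (-2 * (j : ℤ)) * a j with hc
  have hu0 : u ≠ 0 := hu.ne'
  have hNuA' : D.Nu n1 u (D.At (u ^ n1) p) = u ^ 2 * ∑ j ∈ Finset.range n1, c (j + 1) := by
    rw [hNuA, Finset.mul_sum]
    refine Finset.sum_congr rfl fun j _ => ?_
    simp only [hc]
    rw [← mul_assoc]
    congr 1
    rw [← zpow_natCast, ← zpow_add₀ hu0]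
    congr 1
    push_cast
    ring
  have ha0 : a 0 = nsq p := by
    simp only [ha]
    rw [Fintype.sum_unique]
    have : (List.ofFn (default : Fin 0 → Fin n)) = [] := by simp
    rw [this, hY0, one_mul, hcf]
  have hc0 : c 0 = nsq p := by
    simp only [hc]
    rw [ha0]
    simp
  have hcn : c n1 ≤ nsq p := by
    have h5 := h4 n L D n1 M4 hL (u ^ n1) (pow_pos hu n1) (pow_le_one₀ hu.le hu1) p hp
    have h6 : a n1 ≤ (u ^ n1) ^ 2 * nsq p := h5
    have h7 : c n1 ≤ u ^ (-2 * (n1 : ℤ)) * ((u ^ n1) ^ 2 * nsq p) :=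
      mul_le_mul_of_nonneg_left h6 (zpow_pos hu _).le
    have h8 : u ^ (-2 * (n1 : ℤ)) * ((u ^ n1) ^ 2 * nsq p) = nsq p := by
      rw [← mul_assoc, ← pow_mul, ← zpow_natCast, ← zpow_add₀ hu0]
      have : (-2 * (n1 : ℤ) + ((n1 * 2 : ℕ) : ℤ)) = 0 := by
        push_cast
        ring
      rw [this, zpow_zero, one_mul]
    rw [h8] at h7
    exact h7
  have hsh : ∑ j ∈ Finset.range n1, c (j + 1) = ∑ j ∈ Finset.range n1, c j + c n1 - c 0 := by
    have e4 := Finset.sum_range_succ c n1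
    have e5 := Finset.sum_range_succ' c n1
    linarith
  rw [hNuA', hNu]
  refine mul_le_mul_of_nonneg_left ?_ (by positivity)
  rw [hsh]
  linarith

end Pool.Agent.Helper3.SI
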